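import Pool.Agent.Helper26.WR.Stmts

set_option autoImplicit false

/-! # Conductors of wreath products: base change of the standing hypotheses -/

namespace Pool.Agent.Helper26.WR

open Pool.Agent.Helper21.DN

universe u

theorem st_BCF : ST_BCF.{u} := by
  intro k K F M _ _ _ _ _ _ _ _ _ _ _ κ v hR
  have hmap : (algebraMap F M).comp ((algebraMap K F).comp κ) = (algebraMap K M).comp κ := by
    ext c
    exact (IsScalarTower.algebraMap_apply K F M (κ c)).symm
  refine ⟨?_, ?_, ?_⟩
  · rw [hmap]
    exact hR.tv
  · intro σ x
    exact hR.inv (AlgEquiv.restrictScalars K σ) x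
  · intro E
    obtain ⟨vE, h1, h2⟩ := hR.sub (E.restrictScalars K)
    refine ⟨vE, ?_, ?_⟩
    · have h3 : (algebraMap F E).comp ((algebraMap K F).comp κ) =
          (algebraMap K (E.restrictScalars K)).comp κ := by
        ext c
        exact (IsScalarTower.algebraMap_apply K F M (κ c)).symm
      rw [h3]
      exact h1
    · intro x
      exact h2 x

end Pool.Agent.Helper26.WR
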