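import Pool.Agent.Helper26.WR.Stmts

set_option autoImplicit false

/-! # Conductors of wreath products: the conductor after tame base change -/

namespace Pool.Agent.Helper26.WR

open Pool.Agent.Helper21.DN

universe u

theorem ct_sup {ι : Type u} (t : Finset ι) (f : ι → ℕ) (m b : ℕ) (h : ∀ i ∈ t, m * f i ≤ b) :
    m * t.sup f ≤ b := by
  rcases t.eq_empty_or_nonempty with he | he
  · rw [he]
    simp
  · obtain ⟨i, hi, hi2⟩ := Finset.exists_mem_eq_sup t he f
    rw [hi2]
    exact h i hi

theorem ct_cond {G G' : Type u} [Group G] [Fintype G] [Group G'] [Fintype G'] (r : G ≃* G')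
    (s1 : G → ℕ) (s2 : G' → ℕ) (m : ℕ) (h : ∀ g, g ≠ 1 → s1 g = m * s2 (r g)) :
    Pool.Agent.Helper21.DN.cond s1 = (m : ℝ) * Pool.Agent.Helper21.DN.cond s2 := by
  have hne : ∀ g : G, g ≠ 1 ↔ r g ≠ 1 := by
    intro g
    rw [Ne, Ne, EmbeddingLike.map_eq_one_iff]
  have hS : S1 s1 = m * S1 s2 := by
    unfold S1
    rw [Finset.mul_sum]
    apply Finset.sum_equiv r.toEquiv
    · intro g
      simp only [Finset.mem_filter, Finset.mem_univ, true_and]
      exact hne g
    · intro g hg
      simp only [Finset.mem_filter, Finset.mem_univ, true_and] at hg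
      exact h g hg
  have hx : x0 s1 = m * x0 s2 := by
    unfold x0
    apply le_antisymm
    · apply Finset.sup_le
      intro g hg
      simp only [Finset.mem_filter, Finset.mem_univ, true_and] at hg
      rw [h g hg]
      apply Nat.mul_le_mul_left
      apply Finset.le_sup (f := s2)
      simp only [Finset.mem_filter, Finset.mem_univ, true_and]
      exact (hne g).1 hg
    · apply ct_sup
      intro g' hg'
      simp only [Finset.mem_filter, Finset.mem_univ, true_and] at hg'
      have h1 : r (r.symm g') = g' := r.apply_symm_apply g'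
      have h2 : r.symm g' ≠ 1 := by
        rw [hne, h1]
        exact hg'
      have h3 := h (r.symm g') h2
      rw [h1] at h3
      rw [← h3]
      apply Finset.le_sup (f := s1)
      simp only [Finset.mem_filter, Finset.mem_univ, true_and]
      exact h2
  have hcard : Fintype.card G = Fintype.card G' := Fintype.card_congr r.toEquiv
  unfold Pool.Agent.Helper21.DN.cond
  rw [hS, hx, hcard]
  push_cast
  ring

theorem ct_iter {F N : Type u} [Field F] [Field N] [Algebra F N] (σ : N ≃ₐ[F] N) (n : ℕ) (x : N) :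
    (⇑(σ : N →+* N))^[n] x = (σ ^ n) x := by
  induction n generalizing x with
  | zero => rfl
  | succ n ih =>
    rw [Function.iterate_succ_apply, ih, pow_succ]
    rfl

theorem st_CT (hVAL : Pool.Agent.Helper21.DN.ST_VAL.{u}) (hRAM : Pool.Agent.Helper21.DN.ST_RAM.{u})
    (hS1 : Pool.Agent.Helper21.DN.ST_S1.{u}) (hCOND : Pool.Agent.Helper21.DN.ST_COND.{u}) :
    ST_CT.{u} := by
  intro p _ k _ _ _ F N M0 _ _ _ _ _ _ _ _ _ _ _ _ _ _ v hv hP hnt j r m hm1 hmp hjr hjv
  obtain ⟨v', hv', hTV'⟩ := hVAL k N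
  have hvv : v' = v := by
    ext x
    rw [hv', hv]
  rw [hvv] at hTV'
  obtain ⟨v0, hv0, hR0⟩ := hRAM k M0
  obtain ⟨π0, hπ0⟩ := hR0.tv.unif
  have hpp : p.Prime := Fact.out
  -- the key relation
  have hkey : ∀ σ : N ≃ₐ[F] N, σ ≠ 1 → s v σ = m * s v0 (r σ) := by
    intro σ hσ
    have hrσ : r σ ≠ 1 := by
      rw [Ne, EmbeddingLike.map_eq_one_iff]
      exact hσ
    -- S1 for M0
    have h0 := hS1 p k M0 ((algebraMap (LaurentSeries k) M0).comp (κ0 k)) v0 hR0.tv
      ((r σ : M0 ≃ₐ[LaurentSeries k] M0) : M0 →+* M0)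
      (fun c => (r σ).commutes (κ0 k c)) (fun x => hR0.inv (r σ) x)
      (by
        obtain ⟨n, hn⟩ := hP (r σ)
        refine ⟨n, fun x => ?_⟩
        rw [ct_iter, hn]
        rfl)
      (by
        by_contra hc
        push Not at hc
        exact hrσ (AlgEquiv.ext hc))
    have h1 := hS1 p k N ((algebraMap (LaurentSeries k) N).comp (κ0 k)) v hTV'
      (σ : N →+* N)
      (fun c => (AlgEquiv.restrictScalars (LaurentSeries k) σ).commutes (κ0 k c))
      (fun x => by
        rw [hv, hv]
        unfold val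
        exact congrArg HahnSeries.orderTop
          (Algebra.norm_eq_of_algEquiv (AlgEquiv.restrictScalars (LaurentSeries k) σ) x))
      (by
        obtain ⟨n, hn⟩ := hP (r σ)
        refine ⟨n, fun x => ?_⟩
        have h2 : σ ^ p ^ n = 1 := by
          apply r.injective
          rw [map_pow, hn, map_one]
        rw [ct_iter, h2]
        rfl)
      (by
        by_contra hc
        push Not at hc
        exact hσ (AlgEquiv.ext hc))
    have h2 := h0.2.2 π0 1 hπ0 (by
      intro hd
      have h3 : (p : ℤ) = 1 ∨ (p : ℤ) = -1 := Int.isUnit_iff.1 (isUnit_of_dvd_one hd)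
      have h4 := hpp.one_lt
      omega)
    have hx : v (j π0) = ((m : ℤ) : WithTop ℤ) := by
      rw [hv, hjv, ← hv0, hπ0]
      have h5 : ((1 : ℤ) : WithTop ℤ) = 1 := rfl
      rw [← h5, ← WithTop.coe_nsmul]
      simp
    have h3 := h1.2.2 (j π0) m hx (by
      intro hd
      exact hmp (Int.natCast_dvd_natCast.1 hd))
    have h4 : (σ : N →+* N) (j π0) - j π0 = j ((r σ : M0 →+* M0) π0 - π0) := by
      rw [map_sub]
      have h6 := hjr σ π0
      exact congrArg (fun z => z - j π0) h6.symm
    rw [h4, hv, hjv, ← hv0, h2, ← WithTop.coe_nsmul] at h3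
    have h5 := WithTop.coe_inj.1 h3
    have h6 : (m : ℤ) * (1 + (s v0 (r σ) : ℤ)) = (m : ℤ) + (s v σ : ℤ) := by
      have h8 := h5
      rw [nsmul_eq_mul] at h8
      exact h8
    have h7 : ((m * s v0 (r σ) : ℕ) : ℤ) = (s v σ : ℤ) := by
      push_cast
      linarith
    exact_mod_cast h7.symm
  rw [hCOND p k M0 v0 hv0 hR0 hP hnt]
  exact ct_cond r _ _ m hkey

end Pool.Agent.Helper26.WR
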