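import Pool.Agent.Helper26.WR.Stmts

set_option autoImplicit false

/-! # Conductors of wreath products: the Herbrand functions of a subextension -/

namespace Pool.Agent.Helper26.WR

open Pool.Agent.Helper21.DN

universe u

open scoped Classical in
theorem phic_mul {G : Type u} [Group G] [Fintype G] (f : G → ℕ) (u : ℝ) :
    (Fintype.card G : ℝ) * phi f u =
      u + ∑ g ∈ Finset.univ.filter (fun g : G => g ≠ 1), min (f g : ℝ) u := by
  unfold phi
  have h : (Fintype.card G : ℝ) ≠ 0 := by
    have : 0 < Fintype.card G := Fintype.card_pos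
    exact_mod_cast this.ne'
  rw [mul_div_cancel₀ _ h]

open scoped Classical in
theorem phic_img {K F M : Type u} [Field K] [Field F] [Field M] [Algebra K F] [Algebra K M]
    [Algebra F M] [IsScalarTower K F M] [FiniteDimensional K M] [FiniteDimensional F M]
    (f : (M ≃ₐ[K] M) → ℝ) :
    ∑ g ∈ Finset.univ.filter (fun g : M ≃ₐ[F] M => g ≠ 1), f (AlgEquiv.restrictScalars K g) =
      ∑ g ∈ (Finset.univ.filter (fun g : M ≃ₐ[F] M => g ≠ 1)).image (AlgEquiv.restrictScalars K),
        f g := by
  rw [Finset.sum_image]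
  intro a _ b _ h
  exact AlgEquiv.restrictScalars_injective K h

theorem phic_ne {K F M : Type u} [Field K] [Field F] [Field M] [Algebra K F] [Algebra K M]
    [Algebra F M] [IsScalarTower K F M] (g : M ≃ₐ[F] M) (hg : g ≠ 1) :
    AlgEquiv.restrictScalars K g ≠ 1 := by
  intro h
  apply hg
  ext x
  exact DFunLike.congr_fun h x

open scoped Classical in
theorem phic_filter {K F M : Type u} [Field K] [Field F] [Field M] [Algebra K F] [Algebra K M]
    [Algebra F M] [IsScalarTower K F M] [FiniteDimensional K M] [FiniteDimensional F M]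
    (H : Subgroup (M ≃ₐ[K] M))
    (hH : ∀ σ : M ≃ₐ[K] M, σ ∈ H ↔ ∀ x : F, σ (algebraMap F M x) = algebraMap F M x) :
    (Finset.univ.filter (fun g : M ≃ₐ[K] M => g ≠ 1)).filter (fun g => g ∈ H) =
      (Finset.univ.filter (fun g : M ≃ₐ[F] M => g ≠ 1)).image (AlgEquiv.restrictScalars K) := by
  ext σ
  simp only [Finset.mem_filter, Finset.mem_univ, true_and, Finset.mem_image]
  constructor
  · rintro ⟨h1, h2⟩
    refine ⟨AlgEquiv.ofRingEquiv (f := (σ : M ≃+* M)) (fun x => (hH σ).1 h2 x), ?_, ?_⟩
    · intro h3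
      apply h1
      ext x
      exact DFunLike.congr_fun h3 x
    · ext x
      rfl
  · rintro ⟨g, h1, h2⟩
    rw [← h2]
    refine ⟨phic_ne g h1, ?_⟩
    rw [hH]
    intro x
    exact g.commutes x

theorem st_PHIC : ST_PHIC.{u} := by
  classical
  intro K F M _ _ _ _ _ _ _ _ _ _ v H hH u hu
  rw [phic_mul, phic_mul]
  have h1 := Finset.sum_filter_add_sum_filter_not
    (Finset.univ.filter (fun g : M ≃ₐ[K] M => g ≠ 1)) (fun g => g ∈ H)
    (fun σ : M ≃ₐ[K] M => min (s v σ : ℝ) u)
  rw [phic_filter H hH, ← phic_img] at h1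
  rw [← h1, add_assoc]
  congr 2
  have h2 : ((Finset.univ.filter (fun g : M ≃ₐ[K] M => g ≠ 1)).filter (fun g => ¬ g ∈ H)) =
      Finset.univ.filter (fun g => g ∉ H) := by
    ext σ
    simp only [Finset.mem_filter, Finset.mem_univ, true_and]
    constructor
    · rintro ⟨-, h3⟩
      exact h3
    · intro h3
      refine ⟨?_, h3⟩
      rintro rfl
      exact h3 H.one_mem
  rw [h2]
  unfold so
  push_cast
  apply Finset.sum_congr rfl
  intro σ hσ
  simp only [Finset.mem_filter, Finset.mem_univ, true_and] at hσ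
  exact min_eq_left (hu σ hσ)

end Pool.Agent.Helper26.WR
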