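import Pool.Agent.Helper67.WR.PHIC

set_option autoImplicit false

/-! # Conductors of wreath products: comparison of the Herbrand functions -/

namespace Pool.Agent.Helper26.WR

open Pool.Agent.Helper21.DN

universe u

theorem st_PHIG : ST_PHIG.{u} := by
  classical
  intro K F M _ _ _ _ _ _ _ _ _ _ v u hu
  rw [phic_mul, phic_mul]
  have h1 := phic_img (K := K) (F := F) (M := M) (fun σ : M ≃ₐ[K] M => min (s v σ : ℝ) u)
  have h2 : ∑ g ∈ Finset.univ.filter (fun g : M ≃ₐ[F] M => g ≠ 1), min (s v g : ℝ) u =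
      ∑ g ∈ Finset.univ.filter (fun g : M ≃ₐ[F] M => g ≠ 1),
        min (s v (AlgEquiv.restrictScalars K g) : ℝ) u := rfl
  rw [h2, h1]
  refine add_le_add le_rfl ?_
  apply Finset.sum_le_sum_of_subset_of_nonneg
  · intro σ hσ
    obtain ⟨g, hg, hg2⟩ := Finset.mem_image.1 hσ
    simp only [Finset.mem_filter, Finset.mem_univ, true_and] at hg ⊢
    rw [← hg2]
    exact phic_ne g hg
  · intro σ _ _
    exact le_min (Nat.cast_nonneg _) hu

end Pool.Agent.Helper26.WR
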