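import Pool.Agent.Helper26.WR.Stmts

set_option autoImplicit false

/-! # Conductors of wreath products: the sum outside the preimage of a subgroup -/

namespace Pool.Agent.Helper26.WR

open Pool.Agent.Helper21.DN

universe u

section

variable (K L M : Type u) [Field K] [Field L] [Field M] [Algebra K L] [Algebra K M] [Algebra L M]
  [IsScalarTower K L M]

/-- the image of `L` in `M` -/
noncomputable def diffE : IntermediateField K M := (IsScalarTower.toAlgHom K L M).fieldRange

theorem diff_mem (x : L) : algebraMap L M x ∈ diffE K L M := ⟨x, rfl⟩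

/-- the isomorphism of `L` with its image -/
noncomputable def diffe : L ≃ₐ[K] diffE K L M :=
  AlgEquiv.ofBijective
    ({ toFun := fun x => ⟨algebraMap L M x, diff_mem K L M x⟩
       map_one' := Subtype.ext (map_one (algebraMap L M))
       map_mul' := fun x y => Subtype.ext (map_mul (algebraMap L M) x y)
       map_zero' := Subtype.ext (map_zero (algebraMap L M))
       map_add' := fun x y => Subtype.ext (map_add (algebraMap L M) x y)
       commutes' := fun x => Subtype.ext (IsScalarTower.algebraMap_apply K L M x).symm } :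
      L →ₐ[K] diffE K L M)
    ⟨fun x y h => (algebraMap L M).injective (congrArg Subtype.val h), fun y => by
      obtain ⟨x, hx⟩ := y.2
      exact ⟨x, Subtype.ext hx⟩⟩

theorem diff_coe (x : L) : ((diffe K L M x : diffE K L M) : M) = algebraMap L M x := rfl

theorem diff_rank [FiniteDimensional K L] [FiniteDimensional K M] :
    Module.finrank (diffE K L M) M = Module.finrank L M := by
  have h1 := Module.finrank_mul_finrank K L M
  have h2 := Module.finrank_mul_finrank K (diffE K L M) M
  have h3 : Module.finrank K L = Module.finrank K (diffE K L M) :=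
    (diffe K L M).toLinearEquiv.finrank_eq
  have h4 : 0 < Module.finrank K L := Module.finrank_pos
  rw [← h3, ← h1] at h2
  exact Nat.eq_of_mul_eq_mul_left h4 h2

end

theorem diff_s {L E : Type u} [Field L] [Field E] (e : L ≃+* E) (vL : AddValuation L (WithTop ℤ))
    (vE : AddValuation E (WithTop ℤ)) (hv : ∀ x, vE (e x) = vL x) (σ : L → L) (σ' : E → E)
    (hσ : ∀ x, σ' (e x) = e (σ x)) : s vE σ' = s vL σ := by
  unfold s
  congr 1
  ext i
  constructor
  · intro h x
    have h1 := h (e x)
    rw [hσ, ← map_sub, hv, hv] at h1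
    exact h1
  · intro h y
    obtain ⟨x, rfl⟩ := e.surjective y
    have h1 := h x
    rw [hσ, ← map_sub, hv, hv]
    exact h1

theorem st_DIFF (hP3 : Pool.Agent.Helper21.DN.ST_P3.{u}) : ST_DIFF.{u} := by
  classical
  intro p _ k K L M _ _ _ _ _ _ _ _ _ _ _ _ _ κ v hR hP vL hTV hvL H
  set E := diffE K L M with hE
  set e := diffe K L M with he
  set vE : AddValuation E (WithTop ℤ) := vL.comap (e.symm : E →+* L) with hvE
  have hvEe : ∀ x : L, vE (e x) = vL x := by
    intro x
    change vL (e.symm (e x)) = vL x
    rw [e.symm_apply_apply]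
  have hTE : TV ((algebraMap K E).comp κ) vE := by
    refine ⟨?_, ?_, ?_⟩
    · obtain ⟨π, hπ⟩ := hTV.unif
      exact ⟨e π, by rw [hvEe, hπ]⟩
    · intro c hc
      have h1 : ((algebraMap K E).comp κ) c = e (((algebraMap K L).comp κ) c) :=
        (e.commutes (κ c)).symm
      rw [h1, hvEe]
      exact hTV.alg c hc
    · intro x hx
      obtain ⟨y, rfl⟩ := e.surjective x
      rw [hvEe] at hx
      obtain ⟨c, hc⟩ := hTV.const y hx
      refine ⟨c, ?_⟩
      have h1 : ((algebraMap K E).comp κ) c = e (((algebraMap K L).comp κ) c) :=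
        (e.commutes (κ c)).symm
      rw [h1, ← map_sub, hvEe]
      exact hc
  have hvEM : ∀ x : E, v (x : M) = Module.finrank E M • vE x := by
    intro x
    obtain ⟨y, rfl⟩ := e.surjective x
    rw [hvEe]
    have h1 : Module.finrank E M = Module.finrank L M := diff_rank K L M
    rw [h1]
    exact hvL y
  have hNE : Normal K E := Normal.of_algEquiv e
  have hres : ∀ (σ : M ≃ₐ[K] M) (x : L), (σ.restrictNormal E) (e x) = e (σ.restrictNormal L x) := by
    intro σ x
    apply Subtype.ext
    have h1 : ((σ.restrictNormal E (e x) : E) : M) = σ ((e x : E) : M) :=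
      AlgEquiv.restrictNormal_commutes σ E (e x)
    have h2 : algebraMap L M (σ.restrictNormal L x) = σ (algebraMap L M x) :=
      AlgEquiv.restrictNormal_commutes σ L x
    rw [h1]
    exact h2.symm
  have hss : ∀ σ : M ≃ₐ[K] M, s vE (σ.restrictNormal E) = s vL (σ.restrictNormal L) := by
    intro σ
    exact diff_s e.toRingEquiv vL vE hvEe _ _ (hres σ)
  have hker : ∀ σ : M ≃ₐ[K] M, σ ∈ E.fixingSubgroup ↔ AlgEquiv.restrictNormalHom L σ = 1 := by
    intro σ
    rw [IntermediateField.mem_fixingSubgroup_iff]
    constructor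
    · intro h
      ext x
      apply (algebraMap L M).injective
      have h2 : algebraMap L M (σ.restrictNormal L x) = σ (algebraMap L M x) :=
        AlgEquiv.restrictNormal_commutes σ L x
      have h3 := h (algebraMap L M x) (diff_mem K L M x)
      exact h2.trans h3
    · intro h y hy
      obtain ⟨x, hx⟩ := hy
      have h2 : algebraMap L M (σ.restrictNormal L x) = σ (algebraMap L M x) :=
        AlgEquiv.restrictNormal_commutes σ L x
      have h3 : σ.restrictNormal L x = x := DFunLike.congr_fun h x
      rw [h3] at h2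
      have h4 : algebraMap L M x = y := hx
      rw [← h4]
      exact h2.symm
  -- the fibres
  have hfib : ∀ τ : L ≃ₐ[K] L, τ ∉ H →
      ∑ g ∈ (Finset.univ.filter (fun g : M ≃ₐ[K] M => g ∉ H.comap
        (AlgEquiv.restrictNormalHom L : (M ≃ₐ[K] M) →* (L ≃ₐ[K] L)))).filter
        (fun g => AlgEquiv.restrictNormalHom L g = τ), s v g = Module.finrank L M * s vL τ := by
    intro τ hτ
    obtain ⟨σ0, hσ0⟩ := AlgEquiv.restrictNormalHom_surjective (F := K) (K₁ := L) (E := M) τ
    have hτ1 : τ ≠ 1 := by
      rintro rfl
      exact hτ H.one_mem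
    have h1 := hP3 p k K M κ v hR hP E vE hTE hvEM σ0 (by
      rw [hker, hσ0]
      exact hτ1)
    rw [hss] at h1
    have h2 : Module.finrank E M = Module.finrank L M := diff_rank K L M
    have h3 : σ0.restrictNormal L = τ := hσ0
    rw [h2, h3] at h1
    rw [h1]
    unfold cs
    symm
    apply Finset.sum_equiv (Equiv.mulLeft σ0)
    · intro j
      simp only [Finset.mem_filter, Finset.mem_univ, true_and, Equiv.coe_mulLeft,
        Subgroup.mem_comap, map_mul, hσ0]
      constructor
      · intro hj
        rw [(hker j).1 hj, mul_one]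
        exact ⟨hτ, rfl⟩
      · rintro ⟨-, hj⟩
        rw [hker]
        exact mul_eq_left.1 hj
    · intro j _
      rfl
  unfold so
  rw [← Finset.sum_fiberwise_of_maps_to (s := Finset.univ.filter (fun g : M ≃ₐ[K] M => g ∉ H.comap
        (AlgEquiv.restrictNormalHom L : (M ≃ₐ[K] M) →* (L ≃ₐ[K] L))))
        (t := Finset.univ.filter (fun τ : L ≃ₐ[K] L => τ ∉ H))
        (g := fun g => AlgEquiv.restrictNormalHom L g) (by
      intro g hg
      simp only [Finset.mem_filter, Finset.mem_univ, true_and, Subgroup.mem_comap] at hg ⊢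
      exact hg), Finset.mul_sum]
  apply Finset.sum_congr rfl
  intro τ hτ
  simp only [Finset.mem_filter, Finset.mem_univ, true_and] at hτ
  exact hfib τ hτ

end Pool.Agent.Helper26.WR
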